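import Mathlib

/-!
A counting lemma for forests whose edges carry distinct levels.
-/

namespace Pool.Agent.H713R3.LDim

open Relation

/-- Adjacency by an edge of `F`. -/
def Adj {V E : Type*} (s t : E → V) (F : Set E) (u v : V) : Prop :=
  ∃ e ∈ F, (s e = u ∧ t e = v) ∨ (s e = v ∧ t e = u)

theorem Adj.mono {V E : Type*} {s t : E → V} {F G : Set E} (h : F ⊆ G) {u v : V}
    (huv : Adj s t F u v) : Adj s t G u v := by
  obtain ⟨e, he, h1⟩ := huv
  exact ⟨e, h he, h1⟩

open Classical in
/-- If no edge of `F` has its two ends joined by edges of larger level, then `F` has fewer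
edges than vertices. -/
theorem forest {V E : Type*} (s t : E → V) (lev : E → ℕ) :
    ∀ (n : ℕ) (F : Finset E) (W : Finset V), F.card = n → W.Nonempty →
      (∀ e ∈ F, s e ∈ W ∧ t e ∈ W) →
      (∀ e ∈ F, ∀ e' ∈ F, lev e = lev e' → e = e') →
      (∀ e ∈ F, ¬ ReflTransGen (Adj s t {e' | e' ∈ F ∧ lev e < lev e'}) (s e) (t e)) →
      F.card + 1 ≤ W.card := by
  intro n
  induction n using Nat.strong_induction_on with
  | _ n ih =>
    intro F W hn hW hFW hinj hno
    rcases F.eq_empty_or_nonempty with rfl | hF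
    · simpa using Finset.card_pos.mpr hW
    obtain ⟨e, he, hmin⟩ := F.exists_min_image lev hF
    set C : Set V := {v | ReflTransGen (Adj s t {e' | e' ∈ F ∧ lev e < lev e'}) (s e) v} with hC
    have hlt : ∀ e' ∈ F.erase e, lev e < lev e' := by
      intro e' he'
      have h1 := Finset.mem_erase.mp he'
      rcases lt_or_eq_of_le (hmin e' h1.2) with h | h
      · exact h
      · exact absurd (hinj e he e' h1.2 h).symm h1.1
    have hiff : ∀ e' ∈ F.erase e, (s e' ∈ C ↔ t e' ∈ C) := by
      intro e' he'
      have h1 := Finset.mem_erase.mp he'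
      have hmem : e' ∈ {e' | e' ∈ F ∧ lev e < lev e'} := ⟨h1.2, hlt e' he'⟩
      constructor
      · intro h
        exact ReflTransGen.tail h ⟨e', hmem, Or.inl ⟨rfl, rfl⟩⟩
      · intro h
        exact ReflTransGen.tail h ⟨e', hmem, Or.inr ⟨rfl, rfl⟩⟩
    set F1 := (F.erase e).filter (fun e' => s e' ∈ C) with hF1
    set F2 := (F.erase e).filter (fun e' => ¬ s e' ∈ C) with hF2
    set W1 := W.filter (fun v => v ∈ C) with hW1
    set W2 := W.filter (fun v => ¬ v ∈ C) with hW2
    have hcF : F1.card + F2.card = (F.erase e).card := by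
      rw [hF1, hF2]; exact Finset.card_filter_add_card_filter_not _
    have hcW : W1.card + W2.card = W.card := by
      rw [hW1, hW2]; exact Finset.card_filter_add_card_filter_not _
    have hce : (F.erase e).card + 1 = F.card := Finset.card_erase_add_one he
    have hF1F : F1 ⊆ F := (Finset.filter_subset _ _).trans (Finset.erase_subset _ _)
    have hF2F : F2 ⊆ F := (Finset.filter_subset _ _).trans (Finset.erase_subset _ _)
    have hsub : ∀ G : Finset E, G ⊆ F → ∀ e' ∈ G,
        ¬ ReflTransGen (Adj s t {e'' | e'' ∈ G ∧ lev e' < lev e''}) (s e') (t e') := by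
      intro G hG e' he' hcon
      refine hno e' (hG he') (ReflTransGen.mono ?_ _ _ hcon)
      intro u v huv
      refine Adj.mono ?_ huv
      intro x hx
      exact ⟨hG hx.1, hx.2⟩
    have h1 : F1.card + 1 ≤ W1.card := by
      apply ih F1.card (by omega) F1 W1 rfl
      · refine ⟨s e, Finset.mem_filter.mpr ⟨(hFW e he).1, ReflTransGen.refl⟩⟩
      · intro e' he'
        have h2 := Finset.mem_filter.mp he'
        have h3 := hFW e' (hF1F he')
        exact ⟨Finset.mem_filter.mpr ⟨h3.1, h2.2⟩,
          Finset.mem_filter.mpr ⟨h3.2, (hiff e' h2.1).mp h2.2⟩⟩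
      · intro a ha b hb
        exact hinj a (hF1F ha) b (hF1F hb)
      · exact hsub F1 hF1F
    have h2 : F2.card + 1 ≤ W2.card := by
      apply ih F2.card (by omega) F2 W2 rfl
      · refine ⟨t e, Finset.mem_filter.mpr ⟨(hFW e he).2, ?_⟩⟩
        exact hno e he
      · intro e' he'
        have h2 := Finset.mem_filter.mp he'
        have h3 := hFW e' (hF2F he')
        exact ⟨Finset.mem_filter.mpr ⟨h3.1, h2.2⟩,
          Finset.mem_filter.mpr ⟨h3.2, fun h => h2.2 ((hiff e' h2.1).mpr h)⟩⟩
      · intro a ha b hb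
        exact hinj a (hF2F ha) b (hF2F hb)
      · exact hsub F2 hF2F
    omega

end Pool.Agent.H713R3.LDim
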