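import Mathlib
import Pool.Agent.Helper850.RC.P_ramseyP

/-!
Ramsey's theorem for pairs of increasing tuples with a common initial segment.
-/

namespace Pool.Agent.H713R3.LDim

/-- `a` and `b` are increasing tuples, agree before position `l`, and all of `a` is below all
entries of `b` from position `l` on. -/
def Pat {m : ℕ} (l : Fin m) (a b : Fin m → ℕ) : Prop :=
  StrictMono a ∧ StrictMono b ∧ (∀ k, k < l → a k = b k) ∧ (∀ k k', l ≤ k' → a k < b k')

/-- index sequence coding a pair. -/
def code {m : ℕ} (n' : ℕ) (l : Fin m) (a b : Fin m → ℕ) (k : Fin (2 * m)) : ℕ :=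
  if h : k.val < m then a ⟨k.val, h⟩
  else if h2 : k.val < 2 * m - l.val then b ⟨k.val - (m - l.val), by omega⟩
  else n' + (k.val - (2 * m - l.val))

theorem code_strictMono {m : ℕ} (n' : ℕ) (l : Fin m) (a b : Fin m → ℕ) (h : Pat l a b)
    (ha : ∀ k, a k < n') (hb : ∀ k, b k < n') : StrictMono (code n' l a b) := by
  obtain ⟨h1, h2, h3, h4⟩ := h
  intro x y hxy
  have hxy' : x.val < y.val := hxy
  unfold code
  by_cases hx : x.val < m
  · rw [dif_pos hx]
    by_cases hy : y.val < m
    · rw [dif_pos hy]; exact h1 (by simpa using hxy')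
    · rw [dif_neg hy]
      by_cases hy2 : y.val < 2 * m - l.val
      · rw [dif_pos hy2]
        apply h4
        show l.val ≤ y.val - (m - l.val)
        omega
      · rw [dif_neg hy2]
        have := ha ⟨x.val, hx⟩
        omega
  · rw [dif_neg hx]
    have hy : ¬ y.val < m := by omega
    rw [dif_neg hy]
    by_cases hx2 : x.val < 2 * m - l.val
    · rw [dif_pos hx2]
      by_cases hy2 : y.val < 2 * m - l.val
      · rw [dif_pos hy2]
        apply h2
        show x.val - (m - l.val) < y.val - (m - l.val)
        omega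
      · rw [dif_neg hy2]
        have := hb ⟨x.val - (m - l.val), by omega⟩
        omega
    · rw [dif_neg hx2]
      have hy2 : ¬ y.val < 2 * m - l.val := by omega
      rw [dif_neg hy2]
      omega

/-- first component of a decoded pair -/
def decA {m : ℕ} (d : Fin (2 * m) → ℕ) (k : Fin m) : ℕ := d ⟨k.val, by omega⟩

/-- second component of a decoded pair -/
def decB {m : ℕ} (l : Fin m) (d : Fin (2 * m) → ℕ) (k : Fin m) : ℕ :=
  if k < l then d ⟨k.val, by omega⟩ else d ⟨k.val + (m - l.val), by omega⟩

theorem decA_code {m : ℕ} (n' : ℕ) (l : Fin m) (a b : Fin m → ℕ) (h : ℕ → ℕ) :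
    decA (h ∘ code n' l a b) = h ∘ a := by
  funext k
  unfold decA code
  simp

theorem decB_code {m : ℕ} (n' : ℕ) (l : Fin m) (a b : Fin m → ℕ) (h : ℕ → ℕ) (hP : Pat l a b) :
    decB l (h ∘ code n' l a b) = h ∘ b := by
  obtain ⟨h1, h2, h3, h4⟩ := hP
  funext k
  unfold decB
  by_cases hk : k < l
  · rw [if_pos hk]
    have : code n' l a b ⟨k.val, by omega⟩ = a k := by
      unfold code; simp
    simp only [Function.comp]
    rw [this, h3 k hk]
  · rw [if_neg hk]
    have hk' : l.val ≤ k.val := by
      have := not_lt.mp hk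
      exact this
    have : code n' l a b ⟨k.val + (m - l.val), by omega⟩ = b k := by
      unfold code
      have hx : ¬ (k.val + (m - l.val) < m) := by omega
      have hx3 : k.val + (m - l.val) < 2 * m - l.val := by omega
      rw [dif_neg hx, dif_pos hx3]
      congr 1
      apply Fin.ext
      show k.val + (m - l.val) - (m - l.val) = k.val
      omega
    simp only [Function.comp]
    rw [this]

theorem patRamsey (m n' : ℕ) (κ : Type) [Fintype κ] : ∃ N : ℕ,
    ∀ P : κ → Fin m → (Fin m → ℕ) → (Fin m → ℕ) → Prop,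
      ∃ h : ℕ → ℕ, (∀ k < n', h k < N) ∧ (∀ k k', k < k' → k' < n' → h k < h k') ∧
        ∀ j l, (∀ a b, Pat l a b → (∀ k, a k < n') → (∀ k, b k < n') → P j l (h ∘ a) (h ∘ b)) ∨
          (∀ a b, Pat l a b → (∀ k, a k < n') → (∀ k, b k < n') → ¬ P j l (h ∘ a) (h ∘ b)) := by
  classical
  obtain ⟨C, hC⟩ := RC.ramseyP (2 * m)
  obtain ⟨a0, ha0⟩ := hC (κ × Fin m)
  refine ⟨RC.tow C (a0 * (n' + m + 1)), fun P => ?_⟩
  obtain ⟨T, hTS, hTn, hT⟩ := ha0 (n' + m) (Finset.range (RC.tow C (a0 * (n' + m + 1))))
    (by rw [Finset.card_range]) (fun j d => P j.1 j.2 (decA d) (decB j.2 d))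
  set h : ℕ → ℕ := fun k => if hk : k < n' + m then T.orderEmbOfFin hTn ⟨k, hk⟩ else 0 with hh
  have hmem : ∀ k < n' + m, h k ∈ T := by
    intro k hk
    rw [hh]; simp only [dif_pos hk]
    exact Finset.orderEmbOfFin_mem _ _ _
  have hmono : ∀ k k', k < k' → k' < n' + m → h k < h k' := by
    intro k k' hkk hk'
    rw [hh]
    simp only [dif_pos hk', dif_pos (hkk.trans hk')]
    exact (T.orderEmbOfFin hTn).strictMono (by simpa using hkk)
  refine ⟨h, ?_, ?_, ?_⟩
  · intro k hk
    exact Finset.mem_range.mp (hTS (hmem k (by omega)))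
  · intro k k' h1 h2
    exact hmono k k' h1 (by omega)
  · intro j l
    have hcode : ∀ a b, Pat l a b → (∀ k, a k < n') → (∀ k, b k < n') →
        StrictMono (h ∘ code n' l a b) ∧ ∀ x, (h ∘ code n' l a b) x ∈ T := by
      intro a b hP ha hb
      have hlt : ∀ x, code n' l a b x < n' + m := by
        intro x
        unfold code
        split_ifs with h1 h2
        · have := ha ⟨x.val, h1⟩; omega
        · have := hb ⟨x.val - (m - l.val), by omega⟩; omega
        · omega
      constructor
      · intro x y hxy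
        exact hmono _ _ (code_strictMono n' l a b hP ha hb hxy) (hlt y)
      · intro x
        exact hmem _ (hlt x)
    rcases hT (j, l) with h1 | h1
    · left
      intro a b hP ha hb
      have h2 := hcode a b hP ha hb
      have h3 := h1 _ h2.1 h2.2
      simp only at h3
      rw [decA_code, decB_code n' l a b h hP] at h3
      exact h3
    · right
      intro a b hP ha hb
      have h2 := hcode a b hP ha hb
      have h3 := h1 _ h2.1 h2.2
      simp only at h3
      rw [decA_code, decB_code n' l a b h hP] at h3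
      exact h3

end Pool.Agent.H713R3.LDim
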