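import Mathlib

/-!
The layered multiscale poset of width `w`.
-/

namespace Pool.Agent.H713R3.LDim

/-- `s` precedes `t` lexicographically and the first difference is before position `l`. -/
def ltUp {m : ℕ} (l : ℕ) (s t : Fin m → ℕ) : Prop :=
  ∃ p : Fin m, p.val < l ∧ (∀ q, q < p → s q = t q) ∧ s p < t p

theorem ltUp_irrefl {m l : ℕ} (s : Fin m → ℕ) : ¬ ltUp l s s := by
  rintro ⟨p, -, -, h⟩
  exact lt_irrefl _ h

theorem ltUp_trans {m l l' : ℕ} {s t u : Fin m → ℕ} (h1 : ltUp l s t) (h2 : ltUp l' t u) :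
    ltUp (min l l') s u := by
  obtain ⟨p, hp, hpe, hpl⟩ := h1
  obtain ⟨p', hp', hpe', hpl'⟩ := h2
  rcases lt_trichotomy p p' with h | h | h
  · have h' : p.val < p'.val := h
    refine ⟨p, by omega, fun q hq => (hpe q hq).trans (hpe' q (hq.trans h)), ?_⟩
    rw [← hpe' p h]; exact hpl
  · subst h
    exact ⟨p, by omega, fun q hq => (hpe q hq).trans (hpe' q hq), hpl.trans hpl'⟩
  · have h' : p'.val < p.val := h
    refine ⟨p', by omega, fun q hq => (hpe q (hq.trans h)).trans (hpe' q hq), ?_⟩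
    rw [hpe p' h]; exact hpl'

theorem ltUp_mono {m l l' : ℕ} (hl : l ≤ l') {s t : Fin m → ℕ} (h1 : ltUp l s t) :
    ltUp l' s t := by
  obtain ⟨p, hp, hpe, hpl⟩ := h1
  exact ⟨p, by omega, hpe, hpl⟩

/-- Points: a layer, a chain, and a tuple. -/
@[ext] structure Pt (w H : ℕ) where
  lay : Fin H
  ch : Fin w
  tup : Fin (w * w) → ℕ

/-- The level of an ordered pair of chains. -/
def lev {w : ℕ} (i j : Fin w) : Fin (w * w) := finProdFinEquiv (i, j)

theorem lev_inj {w : ℕ} {i j i' j' : Fin w} (h : lev i j = lev i' j') : i = i' ∧ j = j' := by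
  have := finProdFinEquiv.injective h
  simpa using this

/-- The strict order. -/
def Pt.lt' {w H : ℕ} (x y : Pt w H) : Prop :=
  (x.ch = y.ch ∧ (x.lay.val < y.lay.val ∨
      (x.lay.val = y.lay.val ∧ ltUp (w * w) x.tup y.tup))) ∨
  (x.ch ≠ y.ch ∧ (x.lay.val + 2 ≤ y.lay.val ∨
      (x.lay.val + 1 = y.lay.val ∧ ltUp (lev x.ch y.ch).val x.tup y.tup)))

theorem Pt.lt'_irrefl {w H : ℕ} (x : Pt w H) : ¬ Pt.lt' x x := by
  rintro (⟨-, h | ⟨-, h⟩⟩ | ⟨h, -⟩)
  · exact lt_irrefl _ h
  · exact ltUp_irrefl _ h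
  · exact h rfl

theorem Pt.lt'_trans {w H : ℕ} {x y z : Pt w H} (h1 : Pt.lt' x y) (h2 : Pt.lt' y z) :
    Pt.lt' x z := by
  unfold Pt.lt' at *
  rcases h1 with ⟨e1, h1⟩ | ⟨e1, h1⟩ <;> rcases h2 with ⟨e2, h2⟩ | ⟨e2, h2⟩
  · left
    refine ⟨e1.trans e2, ?_⟩
    rcases h1 with h1 | ⟨h1, h1'⟩ <;> rcases h2 with h2 | ⟨h2, h2'⟩
    · left; omega
    · left; omega
    · left; omega
    · right
      refine ⟨by omega, ?_⟩
      have := ltUp_trans h1' h2'
      simpa using this
  · right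
    refine ⟨by rw [e1]; exact e2, ?_⟩
    rcases h1 with h1 | ⟨h1, h1'⟩ <;> rcases h2 with h2 | ⟨h2, h2'⟩
    · left; omega
    · left; omega
    · left; omega
    · right
      refine ⟨by omega, ?_⟩
      rw [e1]
      have h3 := ltUp_trans h1' h2'
      have h4 : (lev y.ch z.ch).val ≤ w * w := (lev y.ch z.ch).isLt.le
      rwa [min_eq_right h4] at h3
  · right
    refine ⟨by rw [← e2]; exact e1, ?_⟩
    rcases h1 with h1 | ⟨h1, h1'⟩ <;> rcases h2 with h2 | ⟨h2, h2'⟩
    · left; omega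
    · left; omega
    · left; omega
    · right
      refine ⟨by omega, ?_⟩
      rw [← e2]
      have h3 := ltUp_trans h1' h2'
      have h4 : (lev x.ch y.ch).val ≤ w * w := (lev x.ch y.ch).isLt.le
      rwa [min_eq_left h4] at h3
  · have hlay : x.lay.val + 2 ≤ z.lay.val := by
      rcases h1 with h1 | ⟨h1, h1'⟩ <;> rcases h2 with h2 | ⟨h2, h2'⟩ <;> omega
    by_cases e : x.ch = z.ch
    · left
      exact ⟨e, Or.inl (by omega)⟩
    · right
      exact ⟨e, Or.inl hlay⟩

instance {w H : ℕ} : IsStrictOrder (Pt w H) Pt.lt' where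
  irrefl := Pt.lt'_irrefl
  trans := fun _ _ _ => Pt.lt'_trans

instance {w H : ℕ} : PartialOrder (Pt w H) := partialOrderOfSO Pt.lt'

theorem Pt.lt_iff {w H : ℕ} {x y : Pt w H} : x < y ↔ Pt.lt' x y := Iff.rfl

theorem Pt.le_iff {w H : ℕ} {x y : Pt w H} : x ≤ y ↔ x = y ∨ Pt.lt' x y := Iff.rfl

/-- Two points of the same chain are comparable. -/
theorem Pt.comparable {w H : ℕ} {x y : Pt w H} (h : x.ch = y.ch) : x ≤ y ∨ y ≤ x := by
  rcases lt_trichotomy x.lay.val y.lay.val with h1 | h1 | h1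
  · exact Or.inl (Or.inr (Or.inl ⟨h, Or.inl h1⟩))
  · by_cases ht : x.tup = y.tup
    · left
      exact Or.inl (Pt.ext (Fin.ext h1) h ht)
    · -- first difference
      have hne : (Finset.univ.filter fun q => x.tup q ≠ y.tup q).Nonempty := by
        by_contra hcon
        rw [Finset.not_nonempty_iff_eq_empty] at hcon
        apply ht
        funext q
        by_contra hq
        have : q ∈ (Finset.univ.filter fun q => x.tup q ≠ y.tup q) := by
          simp [hq]
        rw [hcon] at this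
        exact absurd this (Finset.notMem_empty _)
      set p := (Finset.univ.filter fun q => x.tup q ≠ y.tup q).min' hne with hp
      have hpm : x.tup p ≠ y.tup p := by
        have := Finset.min'_mem _ hne
        rw [← hp] at this
        simpa using this
      have hpe : ∀ q, q < p → x.tup q = y.tup q := by
        intro q hq
        by_contra hcon
        have : p ≤ q := Finset.min'_le _ _ (by simp [hcon])
        exact absurd hq (not_lt.mpr this)
      rcases lt_or_gt_of_ne hpm with h2 | h2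
      · exact Or.inl (Or.inr (Or.inl ⟨h, Or.inr ⟨h1, p, p.isLt, hpe, h2⟩⟩))
      · exact Or.inr (Or.inr (Or.inl ⟨h.symm, Or.inr ⟨h1.symm, p, p.isLt,
          fun q hq => (hpe q hq).symm, h2⟩⟩))
  · exact Or.inr (Or.inr (Or.inl ⟨h.symm, Or.inl h1⟩))

/-- Two distinct points of the same layer and of different chains are incomparable. -/
theorem Pt.not_le_of_lay {w H : ℕ} {x y : Pt w H} (h : x.ch ≠ y.ch) (hl : x.lay = y.lay) :
    ¬ x ≤ y := by
  rintro (h1 | ⟨h1, -⟩ | ⟨-, h1 | ⟨h1, -⟩⟩)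
  · exact h (by rw [h1])
  · exact h h1
  · rw [hl] at h1; omega
  · rw [hl] at h1; omega

end Pool.Agent.H713R3.LDim
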