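import Mathlib
import Pool.Agent.H713R3.LDim.Forest
import Pool.Agent.H713R3.LDim.PatRamsey
import Pool.Agent.H713R3.LDim.Poset

/-!
The core argument: homogeneous local realizers with few slots do not exist.
-/

namespace Pool.Agent.H713R3.LDim

/-- Tuples with prescribed blocks. -/
def tup {m : ℕ} (f : Fin m → ℕ) : Fin m → ℕ := fun k => k.val + m * f k

theorem tup_strictMono {m : ℕ} {f : Fin m → ℕ} (hf : Monotone f) : StrictMono (tup f) := by
  intro x y hxy
  have h1 : x.val < y.val := hxy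
  have h2 : m * f x ≤ m * f y := Nat.mul_le_mul_left _ (hf hxy.le)
  unfold tup
  omega

theorem tup_lt {m : ℕ} {f : Fin m → ℕ} (hf : ∀ k, f k ≤ 3) (k : Fin m) : tup f k < 4 * m := by
  have h2 : m * f k ≤ m * 3 := Nat.mul_le_mul_left _ (hf k)
  have := k.isLt
  unfold tup
  omega

theorem tup_pat {m : ℕ} {l : Fin m} {f g : Fin m → ℕ} (hf : Monotone f) (hg : Monotone g)
    (h1 : ∀ k, k < l → f k = g k) (h2 : ∀ k k', l ≤ k → l ≤ k' → f k < g k') :
    Pat l (tup f) (tup g) := by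
  refine ⟨tup_strictMono hf, tup_strictMono hg, ?_, ?_⟩
  · intro k hk
    unfold tup
    rw [h1 k hk]
  · intro k k' hk'
    by_cases hk : k < l
    · have : tup f k = tup g k := by unfold tup; rw [h1 k hk]
      rw [this]
      exact tup_strictMono hg (lt_of_lt_of_le hk hk')
    · have h3 := h2 k k' (not_lt.mp hk) hk'
      have h4 : m * (f k + 1) ≤ m * g k' := Nat.mul_le_mul_left _ h3
      have h5 := k.isLt
      have h6 : m * (f k + 1) = m * f k + m := by ring
      unfold tup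
      omega

/-- A pair of tuples in pattern `l` with all indices below `4 m`. -/
def Good {m : ℕ} (l : Fin m) (a b : Fin m → ℕ) : Prop :=
  Pat l a b ∧ (∀ k, a k < 4 * m) ∧ (∀ k, b k < 4 * m)

theorem tup_good {m : ℕ} {l : Fin m} {f g : Fin m → ℕ} (hf : Monotone f) (hg : Monotone g)
    (h1 : ∀ k, k < l → f k = g k) (h2 : ∀ k k', l ≤ k → l ≤ k' → f k < g k')
    (hf3 : ∀ k, f k ≤ 3) (hg3 : ∀ k, g k ≤ 3) :
    Good l (tup f) (tup g) :=
  ⟨tup_pat hf hg h1 h2, tup_lt hf3, tup_lt hg3⟩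

/-- An abstract family of partial orders on the poset, together with slots. -/
structure Sys (w H k N : ℕ) (ι : Type*) where
  R : ι → Pt w H → Pt w H → Prop
  mem : ι → Pt w H → Prop
  hmem : ∀ {i x y}, R i x y → mem i x ∧ mem i y
  hirr : ∀ i x, ¬ R i x x
  htr : ∀ {i x y z}, R i x y → R i y z → R i x z
  hext : ∀ {i x y}, mem i x → mem i y → x < y → R i x y
  G : Pt w H → Fin k → Option ι
  hG : ∀ x i, mem i x → ∃ α, G x α = some i
  hinc : ∀ x y, (∀ q, x.tup q < N) → (∀ q, y.tup q < N) → ¬ x ≤ y → ¬ y ≤ x → ∃ i, R i y x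

/-- vertices: layer, chain, slot -/
abbrev Vx (w H k : ℕ) := Fin H × Fin w × Fin k

/-- the point of a vertex at a tuple -/
def el {w H k : ℕ} (v : Vx w H k) (a : Fin (w * w) → ℕ) : Pt w H := ⟨v.1, v.2.1, a⟩

section

variable {w H k N : ℕ} {ι : Type*}

def Sys.U0 (S : Sys w H k N ι) (v v' : Vx w H k) (a b : Fin (w * w) → ℕ) : Prop :=
  ∃ i, S.G (el v a) v.2.2 = some i ∧ S.G (el v' b) v'.2.2 = some i ∧ S.R i (el v a) (el v' b)

def Sys.D0 (S : Sys w H k N ι) (v v' : Vx w H k) (a b : Fin (w * w) → ℕ) : Prop :=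
  ∃ i, S.G (el v a) v.2.2 = some i ∧ S.G (el v' b) v'.2.2 = some i ∧ S.R i (el v' b) (el v a)

def Sys.U (S : Sys w H k N ι) (h : ℕ → ℕ) (v v' : Vx w H k) (l : Fin (w * w)) : Prop :=
  ∀ a b, Good l a b → S.U0 v v' (h ∘ a) (h ∘ b)

def Sys.D (S : Sys w H k N ι) (h : ℕ → ℕ) (v v' : Vx w H k) (l : Fin (w * w)) : Prop :=
  ∀ a b, Good l a b → S.D0 v v' (h ∘ a) (h ∘ b)

/-- `h` is a homogeneous embedding. -/
structure Hom (S : Sys w H k N ι) (h : ℕ → ℕ) : Prop where
  hN : ∀ q < 4 * (w * w), h q < N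
  mono : ∀ q q', q < q' → q' < 4 * (w * w) → h q < h q'
  hU : ∀ v v' l a b, Good l a b → S.U0 v v' (h ∘ a) (h ∘ b) → S.U h v v' l
  hD : ∀ v v' l a b, Good l a b → S.D0 v v' (h ∘ a) (h ∘ b) → S.D h v v' l

theorem exists_hom (w H k : ℕ) : ∃ N : ℕ, ∀ (ι : Type) (S : Sys w H k N ι),
    ∃ h : ℕ → ℕ, Hom S h := by
  obtain ⟨N, hN⟩ := patRamsey (w * w) (4 * (w * w)) (Bool × Vx w H k × Vx w H k)
  refine ⟨N, fun ι S => ?_⟩
  obtain ⟨h, h1, h2, h3⟩ := hN (fun j _ a b =>
    if j.1 then S.U0 j.2.1 j.2.2 a b else S.D0 j.2.1 j.2.2 a b)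
  refine ⟨h, ⟨h1, h2, ?_, ?_⟩⟩
  · intro v v' l a b hab h0
    rcases h3 (true, v, v') l with h4 | h4
    · intro a' b' h5
      simpa using h4 a' b' h5.1 h5.2.1 h5.2.2
    · have := h4 a b hab.1 hab.2.1 hab.2.2
      simp at this
      exact absurd h0 this
  · intro v v' l a b hab h0
    rcases h3 (false, v, v') l with h4 | h4
    · intro a' b' h5
      simpa using h4 a' b' h5.1 h5.2.1 h5.2.2
    · have := h4 a b hab.1 hab.2.1 hab.2.2
      simp at this
      exact absurd h0 this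

variable {S : Sys w H k N ι} {h : ℕ → ℕ}

theorem Hom.ltUp (hh : Hom S h) {l : Fin (w * w)} {L : ℕ} (hl : l.val < L)
    {a b : Fin (w * w) → ℕ} (hab : Good l a b) : ltUp L (h ∘ a) (h ∘ b) := by
  obtain ⟨⟨h1, h2, h3, h4⟩, h5, h6⟩ := hab
  refine ⟨l, hl, ?_, ?_⟩
  · intro q hq
    simp only [Function.comp]
    rw [h3 q hq]
  · exact hh.mono _ _ (h4 l l le_rfl) (h6 l)

theorem Hom.lt_same (hh : Hom S h) {l : Fin (w * w)} {a b : Fin (w * w) → ℕ}
    (hab : Good l a b) (v : Vx w H k) : el v (h ∘ a) < el v (h ∘ b) := by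
  left
  exact ⟨rfl, Or.inr ⟨rfl, hh.ltUp l.isLt hab⟩⟩

theorem Hom.lt_next (hh : Hom S h) {l : Fin (w * w)} {a b : Fin (w * w) → ℕ}
    (hab : Good l a b) (v v' : Vx w H k) (hv : v.1.val + 1 = v'.1.val) (hne : v.2.1 ≠ v'.2.1)
    (hl : l.val < (lev v.2.1 v'.2.1).val) : el v (h ∘ a) < el v' (h ∘ b) := by
  right
  exact ⟨hne, Or.inr ⟨hv, hh.ltUp hl hab⟩⟩

theorem lt_skip (v v' : Vx w H k) (hv : v.1.val + 2 ≤ v'.1.val) (a b : Fin (w * w) → ℕ) :
    el v a < el v' b := by
  by_cases e : v.2.1 = v'.2.1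
  · left
    exact ⟨e, Or.inl (by show v.1.val < v'.1.val; omega)⟩
  · right
    exact ⟨e, Or.inl hv⟩

/-- step function -/
def st {m : ℕ} (l : Fin m) (r s : ℕ) : Fin m → ℕ := fun q => if q < l then r else s

/-- two step function -/
def st2 {m : ℕ} (l l' : Fin m) (r s u : ℕ) : Fin m → ℕ :=
  fun q => if q < l then r else if q < l' then s else u

theorem st_mono {m : ℕ} (l : Fin m) {r s : ℕ} (h : r ≤ s) : Monotone (st l r s) := by
  intro x y hxy
  unfold st
  split_ifs with h1 h2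
  · exact le_rfl
  · exact h
  · exact absurd (lt_of_le_of_lt hxy (by assumption)) h1
  · exact le_rfl

theorem st2_mono {m : ℕ} (l l' : Fin m) {r s u : ℕ} (h : r ≤ s) (h' : s ≤ u) :
    Monotone (st2 l l' r s u) := by
  intro x y hxy
  have hxy' : x.val ≤ y.val := hxy
  unfold st2
  simp only [Fin.lt_def]
  split_ifs <;> omega

theorem good_st {m : ℕ} (l : Fin m) {s s' : ℕ} (h : s < s') (h3 : s' ≤ 3) :
    Good l (tup (st l 0 s)) (tup (st l 0 s')) := by
  apply tup_good (st_mono l (Nat.zero_le _)) (st_mono l (Nat.zero_le _))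
  · intro k hk
    unfold st
    rw [if_pos hk, if_pos hk]
  · intro k k' hk hk'
    unfold st
    rw [if_neg (not_lt.mpr hk), if_neg (not_lt.mpr hk')]
    exact h
  · intro k; unfold st; split_ifs <;> omega
  · intro k; unfold st; split_ifs <;> omega

/-- low level pattern between `st l 0 s` and `st2 l l' 0 s' u`. -/
theorem good_low {m : ℕ} (l l' : Fin m) {s s' u : ℕ} (h : s < s') (h' : s' ≤ u) (h3 : u ≤ 3) :
    Good l (tup (st l 0 s)) (tup (st2 l l' 0 s' u)) := by
  apply tup_good (st_mono l (Nat.zero_le _)) (st2_mono l l' (Nat.zero_le _) h')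
  · intro k hk
    unfold st st2
    rw [if_pos hk, if_pos hk]
  · intro k k' hk hk'
    unfold st st2
    rw [if_neg (not_lt.mpr hk), if_neg (not_lt.mpr hk')]
    split_ifs <;> omega
  · intro k; unfold st; split_ifs <;> omega
  · intro k; unfold st2; split_ifs <;> omega

/-- high level pattern between `st l 0 s` and `st2 l l' 0 s u`. -/
theorem good_high {m : ℕ} (l l' : Fin m) (hll : l < l') {s u : ℕ} (h' : s < u) (h3 : u ≤ 3) :
    Good l' (tup (st l 0 s)) (tup (st2 l l' 0 s u)) := by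
  apply tup_good (st_mono l (Nat.zero_le _)) (st2_mono l l' (Nat.zero_le _) h'.le)
  · intro k hk
    unfold st st2
    rw [if_pos hk]
  · intro k k' hk hk'
    unfold st st2
    have h1 : ¬ k' < l := not_lt.mpr (hll.le.trans hk')
    have h2 : ¬ k < l := not_lt.mpr (hll.le.trans hk)
    rw [if_neg h1, if_neg h2, if_neg (not_lt.mpr hk')]
    exact h'
  · intro k; unfold st; split_ifs <;> omega
  · intro k; unfold st2; split_ifs <;> omega

/-- Lemma A. -/
theorem Hom.UU (hh : Hom S h) {u v : Vx w H k} {l : Fin (w * w)} (hU : S.U h u v l) :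
    S.U h v v l := by
  have g01 := good_st (m := w * w) l (show 0 < 1 by omega) (by omega)
  have g02 := good_st (m := w * w) l (show 0 < 2 by omega) (by omega)
  have g12 := good_st (m := w * w) l (show 1 < 2 by omega) (by omega)
  apply hh.hU v v l _ _ g12
  obtain ⟨i, h1, h2, h3⟩ := hU _ _ g01
  obtain ⟨j, h1', h2', h3'⟩ := hU _ _ g02
  have hij : i = j := by
    rw [h1] at h1'
    exact Option.some.inj h1'
  subst hij
  exact ⟨i, h2, h2', S.hext (S.hmem h3).2 (S.hmem h3').2 (hh.lt_same g12 v)⟩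

/-- Lemma B. -/
theorem Hom.DU (hh : Hom S h) {v v' : Vx w H k} {l : Fin (w * w)} (hD : S.D h v v' l) :
    S.U h v v l := by
  have g01 := good_st (m := w * w) l (show 0 < 1 by omega) (by omega)
  have g02 := good_st (m := w * w) l (show 0 < 2 by omega) (by omega)
  have g12 := good_st (m := w * w) l (show 1 < 2 by omega) (by omega)
  apply hh.hU v v l _ _ g01
  obtain ⟨i, h1, h2, h3⟩ := hD _ _ g02
  obtain ⟨j, h1', h2', h3'⟩ := hD _ _ g12
  have hij : i = j := by
    rw [h2] at h2'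
    exact Option.some.inj h2'
  subst hij
  exact ⟨i, h1, h1', S.hext (S.hmem h3).2 (S.hmem h3').2 (hh.lt_same g01 v)⟩

/-- Lemma E. -/
theorem Hom.not_UD (hh : Hom S h) {v v' : Vx w H k} {l : Fin (w * w)} (hD : S.D h v v' l)
    (hU : S.U h v v' l) : False := by
  have g01 := good_st (m := w * w) l (show 0 < 1 by omega) (by omega)
  obtain ⟨i, h1, h2, h3⟩ := hD _ _ g01
  obtain ⟨j, h1', h2', h3'⟩ := hU _ _ g01
  have hij : i = j := by
    rw [h2] at h2'
    exact Option.some.inj h2'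
  subst hij
  exact S.hirr _ _ (S.htr h3 h3')

/-- Lemma C: from a source to a sink. -/
theorem Hom.stepC (hh : Hom S h) {u v v' : Vx w H k} {l0 : Fin (w * w)}
    (hv : v.1.val + 1 = v'.1.val) (hne : v.2.1 ≠ v'.2.1) (hl : l0 < lev v.2.1 v'.2.1)
    (hD : S.D h v v' (lev v.2.1 v'.2.1)) (hU : S.U h u v l0) : S.U h u v' l0 := by
  set l := lev v.2.1 v'.2.1 with hldef
  -- a = st l0 0 0, c = st l0 0 1, c' = st l0 0 2, b = st2 l0 l 0 2 3
  have gac := good_st (m := w * w) l0 (show 0 < 1 by omega) (by omega)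
  have gcc' := good_st (m := w * w) l0 (show 1 < 2 by omega) (by omega)
  have gc'b := good_high (m := w * w) l0 l hl (show 2 < 3 by omega) (by omega)
  have gab := good_low (m := w * w) l0 l (show 0 < 2 by omega) (show 2 ≤ 3 by omega) (by omega)
  have gcb := good_low (m := w * w) l0 l (show 1 < 2 by omega) (show 2 ≤ 3 by omega) (by omega)
  apply hh.hU u v' l0 _ _ gab
  obtain ⟨i, h1, h2, h3⟩ := hU _ _ gac
  obtain ⟨j, h1', h2', h3'⟩ := (hh.UU hU) _ _ gcc'
  obtain ⟨r, h1'', h2'', h3''⟩ := hD _ _ gc'b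
  have hij : i = j := by
    rw [h2] at h1'
    exact Option.some.inj h1'
  subst hij
  have hir : i = r := by
    rw [h2'] at h1''
    exact Option.some.inj h1''
  subst hir
  refine ⟨i, h1, h2'', S.htr h3 ?_⟩
  exact S.hext (S.hmem h3).2 (S.hmem h3'').1 (hh.lt_next gcb v v' hv hne hl)

/-- Lemma D: from a sink to a source. -/
theorem Hom.stepD (hh : Hom S h) {u v v' : Vx w H k} {l0 l : Fin (w * w)}
    (hl : l0 < l) (hD : S.D h v v' l) (hU : S.U h u v' l0) : S.U h u v l0 := by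
  have gab := good_st (m := w * w) l0 (show 0 < 1 by omega) (by omega)
  have gbb' := good_high (m := w * w) l0 l hl (show 1 < 2 by omega) (by omega)
  have gab' := good_low (m := w * w) l0 l (show 0 < 1 by omega) (show 1 ≤ 2 by omega) (by omega)
  apply hh.hU u v l0 _ _ gab
  obtain ⟨i, h1, h2, h3⟩ := hU _ _ gab'
  obtain ⟨j, h1', h2', h3'⟩ := hD _ _ gbb'
  have hij : i = j := by
    rw [h2] at h2'
    exact Option.some.inj h2'
  subst hij
  exact ⟨i, h1, h1', S.htr h3 h3'⟩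

/-- Lemma F: no vertex is both a sink and a source. -/
theorem Hom.not_both (hh : Hom S h) {u v v' : Vx w H k} {l l' : Fin (w * w)}
    (h2lay : u.1.val + 2 ≤ v'.1.val) (hD1 : S.D h u v l) (hD2 : S.D h v v' l') : False := by
  -- a, b at level l ; b, c at level l'
  have gab := good_st (m := w * w) l (show 0 < 1 by omega) (by omega)
  set f : Fin (w * w) → ℕ := fun q => if q < l' then st l 0 1 q else 3 with hf
  have hfm : Monotone f := by
    intro x y hxy
    have hxy' : x.val ≤ y.val := hxy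
    simp only [hf, st, Fin.lt_def]
    split_ifs <;> omega
  have gbc : Good l' (tup (st l 0 1)) (tup f) := by
    apply tup_good (st_mono l (Nat.zero_le _)) hfm
    · intro q hq
      simp only [hf]
      rw [if_pos hq]
    · intro q q' hq hq'
      simp only [hf]
      rw [if_neg (not_lt.mpr hq')]
      unfold st
      split_ifs <;> omega
    · intro q; unfold st; split_ifs <;> omega
    · intro q; simp only [hf, st]; split_ifs <;> omega
  obtain ⟨i, h1, h2, h3⟩ := hD1 _ _ gab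
  obtain ⟨j, h1', h2', h3'⟩ := hD2 _ _ gbc
  have hij : i = j := by
    rw [h2] at h1'
    exact Option.some.inj h1'
  subst hij
  have h4 := S.htr h3' h3
  have h5 := S.hext (S.hmem h3).2 (S.hmem h3').1 (lt_skip u v' h2lay _ _)
  exact S.hirr _ _ (S.htr h4 h5)

/-- Every type of pairs is reversed homogeneously. -/
theorem Hom.exists_D (hh : Hom S h) {lam : ℕ} (h1 : lam + 1 < H) {i j : Fin w} (hij : i ≠ j) :
    ∃ α β : Fin k, S.D h (⟨lam, by omega⟩, i, α) (⟨lam + 1, h1⟩, j, β) (lev i j) := by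
  have g01 := good_st (m := w * w) (lev i j) (show 0 < 1 by omega) (by omega)
  set a := tup (st (lev i j) 0 0) with ha
  set b := tup (st (lev i j) 0 1) with hb
  set x : Pt w H := ⟨⟨lam, by omega⟩, i, h ∘ a⟩ with hx
  set y : Pt w H := ⟨⟨lam + 1, h1⟩, j, h ∘ b⟩ with hy
  have hxy : ¬ x ≤ y := by
    rintro (h2 | ⟨h2, -⟩ | ⟨-, h2 | ⟨-, h2⟩⟩)
    · rw [hx, hy, Pt.mk.injEq] at h2
      exact hij h2.2.1
    · exact hij h2
    · simp only [hx, hy] at h2; omega
    · obtain ⟨p, hp, hpe, hpl⟩ := h2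
      have hp' : p < lev i j := hp
      simp only [hx, hy, Function.comp] at hpl
      rw [g01.1.2.2.1 p hp'] at hpl
      exact lt_irrefl _ hpl
  have hyx : ¬ y ≤ x := by
    rintro (h2 | ⟨h2, -⟩ | ⟨-, h2 | ⟨h2, -⟩⟩)
    · rw [hx, hy, Pt.mk.injEq] at h2
      exact hij h2.2.1.symm
    · exact hij h2.symm
    · simp only [hx, hy] at h2; omega
    · simp only [hx, hy] at h2; omega
  obtain ⟨r, hr⟩ := S.hinc x y (fun q => hh.hN _ (g01.2.1 q)) (fun q => hh.hN _ (g01.2.2 q)) hxy hyx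
  obtain ⟨α, hα⟩ := S.hG x r (S.hmem hr).2
  obtain ⟨β, hβ⟩ := S.hG y r (S.hmem hr).1
  refine ⟨α, β, hh.hD _ _ _ _ _ g01 ⟨r, ?_, ?_, ?_⟩⟩
  · exact hα
  · exact hβ
  · exact hr

end

end Pool.Agent.H713R3.LDim
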