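import Mathlib
import Pool.Agent.H713R3.LDim.Core

/-!
Counting: `w - 1` slots are not enough.
-/

namespace Pool.Agent.H713R3.LDim

open Relation

variable {w H k N : ℕ} {ι : Type*} {S : Sys w H k N ι} {h : ℕ → ℕ}

/-- vertex of two consecutive layers -/
def vert (lam : ℕ) (h1 : lam + 1 < H) : (Fin w × Fin k) ⊕ (Fin w × Fin k) → Vx w H k
  | Sum.inl p => (⟨lam, by omega⟩, p)
  | Sum.inr p => (⟨lam + 1, h1⟩, p)

theorem Hom.forest_layer (hh : Hom S h) {lam : ℕ} (h1 : lam + 1 < H) (hw : 2 ≤ w)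
    (A B : Fin w → Fin w → Fin k)
    (hAB : ∀ i j, i ≠ j →
      S.D h (⟨lam, by omega⟩, i, A i j) (⟨lam + 1, h1⟩, j, B i j) (lev i j)) :
    (Finset.univ : Finset (Fin w)).offDiag.card + 1 ≤
      ((Finset.univ : Finset (Fin w)).offDiag.image (fun e => (e.1, A e.1 e.2))).card +
      ((Finset.univ : Finset (Fin w)).offDiag.image (fun e => (e.2, B e.1 e.2))).card := by
  classical
  set F := (Finset.univ : Finset (Fin w)).offDiag with hF
  rw [← Finset.card_disjSum]
  set s : Fin w × Fin w → (Fin w × Fin k) ⊕ (Fin w × Fin k) :=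
    fun e => Sum.inl (e.1, A e.1 e.2) with hs
  set t : Fin w × Fin w → (Fin w × Fin k) ⊕ (Fin w × Fin k) :=
    fun e => Sum.inr (e.2, B e.1 e.2) with ht
  have hFne : F.Nonempty := by
    refine ⟨(⟨0, by omega⟩, ⟨1, by omega⟩), ?_⟩
    rw [hF, Finset.mem_offDiag]
    refine ⟨Finset.mem_univ _, Finset.mem_univ _, ?_⟩
    intro hcon
    have := congrArg Fin.val hcon
    simp at this
  refine forest s t (fun e => (lev e.1 e.2).val) F.card F _ rfl ?_ ?_ ?_ ?_
  · obtain ⟨e, he⟩ := hFne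
    exact ⟨s e, Finset.inl_mem_disjSum.mpr (Finset.mem_image_of_mem _ he)⟩
  · intro e he
    refine ⟨Finset.inl_mem_disjSum.mpr ?_, Finset.inr_mem_disjSum.mpr ?_⟩
    · exact Finset.mem_image_of_mem (fun e : Fin w × Fin w => (e.1, A e.1 e.2)) he
    · exact Finset.mem_image_of_mem (fun e : Fin w × Fin w => (e.2, B e.1 e.2)) he
  · intro e _ e' _ hee
    have h2 : lev e.1 e.2 = lev e'.1 e'.2 := Fin.ext hee
    have h3 := lev_inj h2
    exact Prod.ext h3.1 h3.2
  · intro e he hcon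
    have hne : e.1 ≠ e.2 := (Finset.mem_offDiag.mp he).2.2
    have hD := hAB e.1 e.2 hne
    have key : ∀ x, ReflTransGen
        (Adj s t {e' | e' ∈ F ∧ (lev e.1 e.2).val < (lev e'.1 e'.2).val}) (s e) x →
        S.U h (⟨lam, by omega⟩, e.1, A e.1 e.2) (vert lam h1 x) (lev e.1 e.2) := by
      intro x hx
      induction hx with
      | refl => exact hh.DU hD
      | tail _ hxy ih =>
        obtain ⟨e', ⟨he'F, hlev⟩, h3⟩ := hxy
        have hne' : e'.1 ≠ e'.2 := (Finset.mem_offDiag.mp he'F).2.2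
        have hD' := hAB e'.1 e'.2 hne'
        rcases h3 with ⟨h3, h4⟩ | ⟨h3, h4⟩
        · rw [← h3] at ih
          rw [← h4]
          exact hh.stepC (v := (⟨lam, by omega⟩, e'.1, A e'.1 e'.2))
            (v' := (⟨lam + 1, h1⟩, e'.2, B e'.1 e'.2)) rfl hne' hlev hD' ih
        · rw [← h4] at ih
          rw [← h3]
          exact hh.stepD (v := (⟨lam, by omega⟩, e'.1, A e'.1 e'.2))
            (v' := (⟨lam + 1, h1⟩, e'.2, B e'.1 e'.2)) hlev hD' ih
    exact hh.not_UD hD (key _ hcon)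

theorem no_sys (w : ℕ) (hw : 2 ≤ w) :
    ∃ N : ℕ, ∀ (ι : Type), Sys w (w * (w - 1) + 2) (w - 1) N ι → False := by
  classical
  obtain ⟨N, hN⟩ := exists_hom w (w * (w - 1) + 2) (w - 1)
  refine ⟨N, fun ι S => ?_⟩
  obtain ⟨h, hh⟩ := hN ι S
  have hk : 0 < w - 1 := by omega
  have hex : ∀ (lam : ℕ) (i j : Fin w), ∃ α β : Fin (w - 1),
      ∀ (h1 : lam + 1 < w * (w - 1) + 2), i ≠ j →
        S.D h (⟨lam, by omega⟩, i, α) (⟨lam + 1, h1⟩, j, β) (lev i j) := by
    intro lam i j
    by_cases h1 : lam + 1 < w * (w - 1) + 2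
    · by_cases hij : i ≠ j
      · obtain ⟨α, β, h2⟩ := hh.exists_D h1 hij
        exact ⟨α, β, fun _ _ => h2⟩
      · exact ⟨⟨0, hk⟩, ⟨0, hk⟩, fun _ h3 => absurd h3 hij⟩
    · exact ⟨⟨0, hk⟩, ⟨0, hk⟩, fun h3 _ => absurd h3 h1⟩
  choose A B hAB using hex
  set src : ℕ → Finset (Fin w × Fin (w - 1)) := fun lam =>
    (Finset.univ : Finset (Fin w)).offDiag.image (fun e => (e.1, A lam e.1 e.2)) with hsrc
  set snk : ℕ → Finset (Fin w × Fin (w - 1)) := fun lam =>
    (Finset.univ : Finset (Fin w)).offDiag.image (fun e => (e.2, B lam e.1 e.2)) with hsnk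
  have hcard : (Finset.univ : Finset (Fin w)).offDiag.card = w * (w - 1) := by
    rw [Finset.offDiag_card, Finset.card_univ, Fintype.card_fin, Nat.mul_sub, Nat.mul_one]
  have huniv : ∀ T : Finset (Fin w × Fin (w - 1)), T.card ≤ w * (w - 1) := by
    intro T
    have := Finset.card_le_univ T
    simpa using this
  have hforest : ∀ lam, lam + 1 < w * (w - 1) + 2 →
      w * (w - 1) + 1 ≤ (src lam).card + (snk lam).card := by
    intro lam h1
    have := hh.forest_layer h1 hw (A lam) (B lam) (fun i j hij => hAB lam i j h1 hij)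
    rw [hcard] at this
    exact this
  have hdisj : ∀ lam, lam + 1 + 1 < w * (w - 1) + 2 → Disjoint (src (lam + 1)) (snk lam) := by
    intro lam h1
    rw [Finset.disjoint_left]
    intro p hp1 hp2
    obtain ⟨e, he, rfl⟩ := Finset.mem_image.mp hp1
    obtain ⟨e', he', hp2⟩ := Finset.mem_image.mp hp2
    have hne : e.1 ≠ e.2 := (Finset.mem_offDiag.mp he).2.2
    have hne' : e'.1 ≠ e'.2 := (Finset.mem_offDiag.mp he').2.2
    have hD := hAB (lam + 1) e.1 e.2 h1 hne
    have hD' := hAB lam e'.1 e'.2 (by omega) hne'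
    rw [hp2] at hD'
    refine hh.not_both (u := (⟨lam, by omega⟩, e'.1, A lam e'.1 e'.2)) ?_ hD' hD
    show lam + 2 ≤ lam + 1 + 1
    omega
  have hclaim : ∀ lam, lam + 1 < w * (w - 1) + 2 → lam + 1 ≤ (snk lam).card := by
    intro lam
    induction lam with
    | zero =>
      intro h1
      have h2 := hforest 0 h1
      have h3 := huniv (src 0)
      omega
    | succ n ih =>
      intro h1
      have h2 := hforest (n + 1) h1
      have h3 := ih (by omega)
      have h4 := Finset.card_union_of_disjoint (hdisj n h1)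
      have h5 := huniv (src (n + 1) ∪ snk n)
      omega
  have h6 := hclaim (w * (w - 1)) (by omega)
  have h7 := huniv (snk (w * (w - 1)))
  omega

end Pool.Agent.H713R3.LDim
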